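import Mathlib

/-!
# A curve that is 2-isogenous to its conjugate, and two integral models of it
-/

namespace H89RM

/-- the curve `y ^ 2 = x ^ 3 - 8 (P + 8) S x ^ 2 + 16 (P + 8) ^ 2 P S x` -/
def curve {K : Type} [Field K] (P S : K) : WeierstrassCurve K :=
  ⟨0, -8 * (P + 8) * S, 0, 16 * (P + 8) ^ 2 * P * S, 0⟩

/-- first integral model -/
def modelA {R : Type} [CommRing R] (P S : R) : WeierstrassCurve R :=
  ⟨P, -(4 * S + 32), 0, -(P ^ 3 + 8 * P ^ 2 + 64 * P - 256), 64 * P ^ 2⟩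

/-- second integral model -/
def modelB {R : Type} [CommRing R] (Q S : R) : WeierstrassCurve R :=
  ⟨Q ^ 2, Q ^ 2 * (16 - 2 * S), 0, -(S * (Q + 8) ^ 2 * Q ^ 3), 0⟩

section field

variable {K : Type} [Field K]

theorem curve_Δ (P Q S : K) (hS : S = P - Q) (hPQ : P * Q = -64) :
    (curve P S).Δ = 2 ^ 24 * (P + 8) ^ 6 * P * S ^ 3 := by
  simp only [curve, WeierstrassCurve.Δ, WeierstrassCurve.b₂, WeierstrassCurve.b₄,
    WeierstrassCurve.b₆, WeierstrassCurve.b₈]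
  subst hS
  linear_combination (-(2 ^ 18 * (P + 8) ^ 6 * P * (P - Q) ^ 3)) * hPQ

theorem modelA_eq (h2 : (2 : K) ≠ 0) (P Q S : K) (hS : S = P - Q) (hPQ : P * Q = -64) :
    ∃ C : WeierstrassCurve.VariableChange K, ((C.u⁻¹ : Kˣ) : K) = 1 / 4 ∧
      modelA P S = C • curve P S := by
  have h4 : (4 : K) ≠ 0 := by
    have : (4 : K) = 2 * 2 := by norm_num
    rw [this]; exact mul_ne_zero h2 h2
  have hu : (((Units.mk0 (4 : K) h4)⁻¹ : Kˣ) : K) = 1 / 4 := by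
    rw [Units.val_inv_eq_inv_val, Units.val_mk0, one_div]
  refine ⟨⟨Units.mk0 4 h4, 4 * P ^ 2, 2 * P, 0⟩, hu, ?_⟩
  rw [WeierstrassCurve.variableChange_def]
  simp only [modelA, curve, hu]
  obtain ⟨q, hq⟩ : ∃ q : K, q = 1 / 4 := ⟨_, rfl⟩
  have hq4 : 4 * q = 1 := by rw [hq]; field_simp
  rw [← hq]
  have hPS : P * S = P ^ 2 + 64 := by rw [hS]; linear_combination -hPQ
  ext
  · simp only
    linear_combination (-P) * hq4
  · simp only
    linear_combination 8 * q ^ 2 * hPS + 4 * (S + 8) * (4 * q + 1) * hq4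
  · simp only
    ring
  · simp only
    linear_combination (-16 * q ^ 4 * (P + 8) * (8 - 3 * P)) * hPS
      + (P ^ 3 + 8 * P ^ 2 + 64 * P - 256) * (4 * q + 1) * (16 * q ^ 2 + 1) * hq4
  · simp only
    linear_combination (-64 * q ^ 6 * P ^ 2 * (P + 8) * (8 - P)) * hPS
      - 64 * P ^ 2 * ((4 * q) ^ 5 + (4 * q) ^ 4 + (4 * q) ^ 3 + (4 * q) ^ 2 + 4 * q + 1) * hq4

theorem modelA_Δ (h2 : (2 : K) ≠ 0) (P Q S : K) (hS : S = P - Q) (hPQ : P * Q = -64) :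
    (modelA P S).Δ = S ^ 3 * ((P + 8) ^ 6 * P) := by
  obtain ⟨C, hC, hE⟩ := modelA_eq h2 P Q S hS hPQ
  rw [hE, WeierstrassCurve.variableChange_Δ, hC, curve_Δ P Q S hS hPQ]
  have h4 : (4 : K) ≠ 0 := by
    have : (4 : K) = 2 * 2 := by norm_num
    rw [this]; exact mul_ne_zero h2 h2
  have h5 : (1 / 4 : K) ^ 12 * 2 ^ 24 = 1 := by
    have : (2 : K) ^ 24 = 4 ^ 12 := by norm_num
    rw [this, ← mul_pow]
    field_simp
  linear_combination ((P + 8) ^ 6 * P * S ^ 3) * h5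

theorem modelB_eq (h2 : (2 : K) ≠ 0) (Y P Q S : K) (hY : Y ≠ 0) (hQ : Q ≠ 0) (hQ8 : Q + 8 ≠ 0)
    (hS : S = P - Q) (hPQ : P * Q = -64) (hv : P + Q = Y ^ 2) :
    ∃ C : WeierstrassCurve.VariableChange K, modelB Q S = C • curve P S := by
  have h16 : (16 : K) ≠ 0 := by
    have : (16 : K) = 2 ^ 4 := by norm_num
    rw [this]; exact pow_ne_zero _ h2
  have hne : 16 * Y / (Q * (Q + 8)) ≠ 0 :=
    div_ne_zero (mul_ne_zero h16 hY) (mul_ne_zero hQ hQ8)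
  have hu : (((Units.mk0 (16 * Y / (Q * (Q + 8))) hne)⁻¹ : Kˣ) : K) = Q * (Q + 8) / (16 * Y) := by
    rw [Units.val_inv_eq_inv_val, Units.val_mk0, inv_div]
  refine ⟨⟨Units.mk0 (16 * Y / (Q * (Q + 8))) hne, 0, 8 * Y * Q / (Q + 8), 0⟩, ?_⟩
  rw [WeierstrassCurve.variableChange_def]
  simp only [modelB, curve, hu]
  obtain ⟨h, hh⟩ : ∃ h, h = (Q + 8) / (16 * Y) := ⟨_, rfl⟩
  have hh0 : h ≠ 0 := by
    rw [hh]; exact div_ne_zero hQ8 (mul_ne_zero h16 hY)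
  have hQ8' : Q + 8 = 16 * Y * h := by
    rw [hh]; field_simp
  -- (P + 8) * (Q + 8) = 8 Y²
  have hN : (P + 8) * (Q + 8) = 8 * Y ^ 2 := by
    linear_combination hPQ + 8 * hv
  have hPh : 2 * ((P + 8) * h) = Y := by
    have h0 : 8 * Y * (2 * ((P + 8) * h) - Y) = 0 := by
      linear_combination hN - (P + 8) * hQ8'
    have h8 : (8 : K) ≠ 0 := by
      have : (8 : K) = 2 ^ 3 := by norm_num
      rw [this]; exact pow_ne_zero _ h2
    rcases mul_eq_zero.1 h0 with h1 | h1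
    · exact absurd h1 (mul_ne_zero h8 hY)
    · exact sub_eq_zero.1 h1
  have e1 : Q * (Q + 8) / (16 * Y) = Q * h := by
    rw [hh]; field_simp
  obtain ⟨k, hk⟩ : ∃ k, k = 8 * Y * Q / (Q + 8) := ⟨_, rfl⟩
  have hkh : 2 * (k * h) = Q := by
    rw [hk, hh]; field_simp; norm_num
  rw [e1, ← hk]
  have h4 : (4 : K) ≠ 0 := by
    have : (4 : K) = 2 * 2 := by norm_num
    rw [this]; exact mul_ne_zero h2 h2
  have h64 : (64 : K) ≠ 0 := by
    have : (64 : K) = 2 ^ 6 := by norm_num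
    rw [this]; exact pow_ne_zero _ h2
  ext
  · simp only
    linear_combination (-Q) * hkh
  · simp only
    apply mul_left_cancel₀ h4
    linear_combination (16 * h * Q ^ 2 * S) * hPh - Q ^ 2 * S * hQ8'
      + Q ^ 2 * (2 * k * h + Q) * hkh + Q ^ 3 * hS + Q ^ 2 * hPQ
  · simp only
    ring
  · simp only
    apply mul_left_cancel₀ h64
    linear_combination (-(S * (Q + 8) ^ 2 * Q ^ 3)) * hPQ
      - Q ^ 4 * P * S * 256 * h ^ 2 * (2 * (P + 8) * h + Y) * hPh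
      + Q ^ 4 * P * S * ((Q + 8) + 16 * Y * h) * hQ8'
  · simp only
    ring

end field

/-- the discriminant of the second model -/
theorem modelB_Δ {R : Type} [CommRing R] (P Q S : R) (hS : S = P - Q) (hPQ : P * Q = -64) :
    (modelB Q S).Δ = S ^ 3 * (-((Q + 8) ^ 6 * Q ^ 11)) := by
  have hb2 : (modelB Q S).b₂ = -(Q ^ 2 * S * (Q + 8)) := by
    simp only [modelB, WeierstrassCurve.b₂]
    rw [hS]
    linear_combination (Q ^ 2) * hPQ
  have hb4 : (modelB Q S).b₄ = -2 * (S * (Q + 8) ^ 2 * Q ^ 3) := by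
    simp only [modelB, WeierstrassCurve.b₄]
    ring
  have hb6 : (modelB Q S).b₆ = 0 := by
    simp only [modelB, WeierstrassCurve.b₆]
    ring
  have hb8 : (modelB Q S).b₈ = -(S * (Q + 8) ^ 2 * Q ^ 3) ^ 2 := by
    simp only [modelB, WeierstrassCurve.b₈]
    ring
  rw [WeierstrassCurve.Δ, hb2, hb4, hb6, hb8]
  obtain ⟨T, hT⟩ : ∃ T, T = S * (Q + 8) ^ 2 * Q ^ 3 := ⟨_, rfl⟩
  have key : (-(Q ^ 2 * S * (Q + 8))) ^ 2 + 64 * T = -(Q ^ 5 * S * (Q + 8) ^ 2) := by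
    rw [hT, hS]
    linear_combination ((P - Q) * (Q + 8) ^ 2 * Q ^ 3) * hPQ
  rw [← hT]
  have e1 : -(-(Q ^ 2 * S * (Q + 8))) ^ 2 * -T ^ 2 - 8 * (-2 * T) ^ 3 - 27 * 0 ^ 2
      + 9 * (-(Q ^ 2 * S * (Q + 8))) * (-2 * T) * 0
      = T ^ 2 * ((-(Q ^ 2 * S * (Q + 8))) ^ 2 + 64 * T) := by ring
  rw [e1, key, hT]
  ring

/-- the 2-isogeny to the conjugate -/
theorem isog {K : Type} [Field K] (h2 : (2 : K) ≠ 0) (Y P Q S : K) (hY : Y ≠ 0)
    (hS : S = P - Q) (hPQ : P * Q = -64) (hv : P + Q = Y ^ 2) :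
    -2 * (-8 * (P + 8) * S) = ((P + 8) / (2 * Y)) ^ 2 * (-8 * (Q + 8) * (-S)) ∧
    (-8 * (P + 8) * S) ^ 2 - 4 * (16 * (P + 8) ^ 2 * P * S)
      = ((P + 8) / (2 * Y)) ^ 4 * (16 * (Q + 8) ^ 2 * Q * (-S)) ∧
    (P + 8) / (2 * Y) * ((Q + 8) / (2 * Y)) = 2 := by
  have h2Y : 2 * Y ≠ 0 := mul_ne_zero h2 hY
  have hN : (P + 8) * (Q + 8) = 8 * Y ^ 2 := by
    linear_combination hPQ + 8 * hv
  obtain ⟨l, hl⟩ : ∃ l, l = (P + 8) / (2 * Y) := ⟨_, rfl⟩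
  obtain ⟨m, hm⟩ : ∃ m, m = (Q + 8) / (2 * Y) := ⟨_, rfl⟩
  have hP8 : P + 8 = l * (2 * Y) := by rw [hl]; field_simp
  have hQ8 : Q + 8 = m * (2 * Y) := by rw [hm]; field_simp
  have hlm : l * m = 2 := by
    have h0 : (2 * Y) ^ 2 * (l * m - 2) = 0 := by
      linear_combination hN - (Q + 8) * hP8 - l * (2 * Y) * hQ8
    rcases mul_eq_zero.1 h0 with h1 | h1
    · exact absurd h1 (pow_ne_zero _ h2Y)
    · exact sub_eq_zero.1 h1
  rw [← hl, ← hm]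
  refine ⟨?_, ?_, hlm⟩
  · rw [hP8, hQ8]
    linear_combination (-16 * l * Y * S) * hlm
  · rw [hP8, hQ8]
    linear_combination (64 * (l * (2 * Y)) ^ 2 * S) * hS
      + 16 * (l * (2 * Y)) ^ 2 * Q * S * (l * m + 2) * hlm

end H89RM
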