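import Mathlib
import Pool.Agent.H76.EF.Primes
import Pool.Agent.H76.EF.Schur

/-!
# Local lemmas
-/

namespace H89RM

open NumberField Polynomial

theorem card_mod_eight {k : Type} [Field k] [Finite k] (y : k) (h2 : (2 : k) ≠ 0)
    (h : y ^ 4 = -256) : Nat.card k % 8 = 1 := by
  have h4 : (4 : k) ≠ 0 := by
    have : (4 : k) = 2 * 2 := by norm_num
    rw [this]; exact mul_ne_zero h2 h2
  obtain ⟨z, hz⟩ : ∃ z : k, z = y / 4 := ⟨_, rfl⟩
  have hz4 : z ^ 4 = -1 := by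
    rw [hz, div_pow, h]
    field_simp
    norm_num
  have hz0 : z ≠ 0 := by
    intro h0
    rw [h0] at hz4
    have : (1 : k) = 0 := by linear_combination hz4
    exact one_ne_zero this
  obtain ⟨v, hv⟩ : ∃ v : kˣ, (v : k) = z := ⟨Units.mk0 z hz0, rfl⟩
  have hv8 : v ^ 2 ^ (2 + 1) = 1 := by
    apply Units.ext
    rw [Units.val_pow_eq_pow_val, hv]
    have : z ^ 2 ^ (2 + 1) = (z ^ 4) ^ 2 := by rw [← pow_mul]; norm_num
    rw [this, hz4]
    norm_num
  have hv4 : ¬ v ^ 2 ^ 2 = 1 := by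
    intro h0
    have h1 := congrArg (Units.val) h0
    rw [Units.val_pow_eq_pow_val, hv] at h1
    have : z ^ 2 ^ 2 = z ^ 4 := by norm_num
    rw [this, hz4, Units.val_one] at h1
    apply h2
    linear_combination -h1
  have : Fact (Nat.Prime 2) := ⟨Nat.prime_two⟩
  have ho : orderOf v = 2 ^ (2 + 1) := orderOf_eq_prime_pow hv4 hv8
  have hd : orderOf v ∣ Nat.card kˣ := orderOf_dvd_natCard v
  rw [ho, Nat.card_units] at hd
  have hpos : 0 < Nat.card k := Nat.card_pos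
  omega

variable {F : Type} [Field F] [NumberField F]

theorem not_all {P : Ideal (𝓞 F)} (hP : P.IsPrime) (m : 𝓞 F) (n : 𝓞 F) (hm : m ∈ P)
    (k : 𝓞 F) (hn : n ∈ P) (l : 𝓞 F) (h : k * m + l * n = 1) : False := by
  apply hP.ne_top
  rw [Ideal.eq_top_iff_one, ← h]
  exact P.add_mem (P.mul_mem_left _ hm) (P.mul_mem_left _ hn)

/-- the norm of a prime dividing `Y ^ 4 + 256` -/
theorem norm_mod_eight (Y : 𝓞 F) (P : Ideal (𝓞 F)) (hP : P.IsPrime) (hPb : P ≠ ⊥)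
    (h2 : (2 : 𝓞 F) ∉ P) (hd : Y ^ 4 + 256 ∈ P) : Ideal.absNorm P % 8 = 1 := by
  have hmax : P.IsMaximal := hP.isMaximal hPb
  let _ : Field (𝓞 F ⧸ P) := Ideal.Quotient.field P
  have hfin : Finite (𝓞 F ⧸ P) := Ideal.finiteQuotientOfFreeOfNeBot P hPb
  rw [Ideal.absNorm_apply, Submodule.cardQuot_apply]
  apply card_mod_eight (Ideal.Quotient.mk P Y)
  · intro h
    apply h2
    rw [← Ideal.Quotient.eq_zero_iff_mem]
    exact_mod_cast h
  · have h0 : Ideal.Quotient.mk P (Y ^ 4 + 256) = 0 := Ideal.Quotient.eq_zero_iff_mem.2 hd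
    rw [map_add, map_pow] at h0
    have : Ideal.Quotient.mk P 256 = 256 := map_ofNat _ 256
    rw [this] at h0
    linear_combination h0

/-- an element that is `1` modulo the square of `P` and lies in all the other primes above
the same rational prime -/
theorem exists_sep {p : ℕ} (hp : p.Prime) {P : Ideal (𝓞 F)}
    (hP : P.IsPrime) (hpP : (p : 𝓞 F) ∈ P) :
    ∃ b : 𝓞 F, 1 - b ∈ P ^ 2 ∧ ∀ P' : Ideal (𝓞 F), P'.IsPrime → (p : 𝓞 F) ∈ P' → P' ≠ P →
      b ∈ P' := by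
  have hPb := H76EF.natCast_mem_ne_bot hp hpP
  have hPmax : P.IsMaximal := hP.isMaximal hPb
  have hp0 : (p : 𝓞 F) ≠ 0 := by exact_mod_cast hp.ne_zero
  have hs0 : Ideal.span {(p : 𝓞 F)} ≠ 0 := by
    rw [Ideal.zero_eq_bot, Ne, Ideal.span_singleton_eq_bot]
    exact hp0
  have hprime : Prime P := Ideal.prime_of_isPrime hPb hP
  have hfm : FiniteMultiplicity P (Ideal.span {(p : 𝓞 F)}) :=
    FiniteMultiplicity.of_not_isUnit hprime.not_isUnit hs0
  obtain ⟨S, hS, hSP⟩ := hfm.exists_eq_pow_mul_and_not_dvd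
  have hSP' : ¬ S ≤ P := fun h => hSP (Ideal.dvd_iff_le.2 h)
  have hcop : IsCoprime P S := by
    rw [Ideal.isCoprime_iff_sup_eq]
    by_contra hne
    have h1 : P = P ⊔ S := hPmax.eq_of_le hne le_sup_left
    apply hSP'
    rw [h1]
    exact le_sup_right
  have hcop2 : IsCoprime (P ^ 2) S := hcop.pow_left
  obtain ⟨a, ha, b, hb, hab⟩ := Ideal.isCoprime_iff_exists.1 hcop2
  refine ⟨b, ?_, ?_⟩
  · have : 1 - b = a := by rw [← hab]; ring
    rw [this]; exact ha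
  · intro P' hP' hpP' hne
    have h1 : P ^ multiplicity P (Ideal.span {(p : 𝓞 F)}) * S ≤ P' := by
      rw [← hS, Ideal.span_le, Set.singleton_subset_iff]
      exact hpP'
    rcases hP'.mul_le.1 h1 with h2 | h2
    · exact absurd (hPmax.eq_of_le hP'.ne_top (hP'.le_of_pow_le h2)).symm hne
    · exact h2 hb

/-- a degree one prime with a parameter -/
theorem exists_prime_data (F : Type) [Field F] [NumberField F] (B : ℕ) :
    ∃ (p : ℕ) (P : Ideal (𝓞 F)) (y : ℤ), p.Prime ∧ B < p ∧ P.IsPrime ∧ Ideal.absNorm P = p ∧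
      (p : 𝓞 F) ∈ P ∧ (p : ℤ) ∣ y ^ 4 + 256 ∧ ¬ (p : ℤ) ^ 2 ∣ y ^ 4 + 256 := by
  obtain ⟨g, hg⟩ : ∃ g : ℤ[X], g = X ^ 4 + C 256 := ⟨_, rfl⟩
  have hdeg : g.natDegree = 4 := by rw [hg]; compute_degree!
  have hmon : g.Monic := by rw [hg]; monicity!
  obtain ⟨p, hp, hpB, ⟨φ⟩, n, hn⟩ := H76EF.exists_hom_root F g hmon (by omega) (max B 256)
  obtain ⟨P, hP, hPn, hpP⟩ := H76EF.exists_prime_of_hom hp φ
  have hn' : (p : ℤ) ∣ n ^ 4 + 256 := by
    rw [hg] at hn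
    simpa using hn
  have hp256 : 256 < p := by omega
  have hpr : Prime (p : ℤ) := Nat.prime_iff_prime_int.1 hp
  by_cases h1 : (p : ℤ) ^ 2 ∣ n ^ 4 + 256
  · refine ⟨p, P, n + p, hp, by omega, hP, hPn, hpP, ?_, ?_⟩
    · have e : (n + (p : ℤ)) ^ 4 + 256 = (n ^ 4 + 256) + p * (4 * n ^ 3 + 6 * n ^ 2 * p
        + 4 * n * p ^ 2 + p ^ 3) := by ring
      rw [e]
      exact dvd_add hn' (Dvd.intro _ rfl)
    · have e : (n + (p : ℤ)) ^ 4 + 256 = (n ^ 4 + 256) + (p : ℤ) ^ 2 * (6 * n ^ 2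
        + 4 * n * p + p ^ 2) + p * (4 * n ^ 3) := by ring
      rw [e]
      intro h2
      have h3 : (p : ℤ) ^ 2 ∣ p * (4 * n ^ 3) :=
        (dvd_add_right (dvd_add h1 (Dvd.intro _ rfl))).1 h2
      rw [sq] at h3
      have h5 : (p : ℤ) ∣ 4 * n ^ 3 := Int.dvd_of_mul_dvd_mul_left hpr.ne_zero h3
      rcases hpr.dvd_or_dvd h5 with h | h
      · have h4 := Int.le_of_dvd (by norm_num) h
        omega
      · have h6 : (p : ℤ) ∣ n := hpr.dvd_of_dvd_pow h
        have h7 : (p : ℤ) ∣ 256 := (dvd_add_right (Dvd.dvd.pow h6 (by norm_num))).1 hn'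
        have h8 := Int.le_of_dvd (by norm_num) h7
        omega
  · exact ⟨p, P, n, hp, by omega, hP, hPn, hpP, hn', h1⟩

end H89RM
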