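import Mathlib
import Pool.Agent.H89.RM.Loc

/-!
# The choice of the parameter
-/

namespace H89RM

open NumberField

variable {F : Type} [Field F] [NumberField F]

theorem exists_prime_three (F : Type) [Field F] [NumberField F] :
    ∃ Q : Ideal (𝓞 F), Q.IsPrime ∧ (3 : 𝓞 F) ∈ Q := by
  have hmax : (Ideal.span {(3 : ℤ)}).IsMaximal := by
    have h3 : Prime (3 : ℤ) := Int.prime_three
    exact ((Ideal.span_singleton_prime h3.ne_zero).mpr h3).isMaximal (by simp)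
  obtain ⟨Q, hQm, hQ⟩ := Ideal.exists_maximal_ideal_liesOver_of_isIntegral
    (S := 𝓞 F) (Ideal.span {(3 : ℤ)})
  refine ⟨Q, hQm.isPrime, ?_⟩
  have h1 : (3 : ℤ) ∈ Q.under ℤ := by
    rw [← hQ.over]
    exact Ideal.mem_span_singleton_self _
  rw [Ideal.under_def, Ideal.mem_comap] at h1
  simpa using h1

theorem exists_e {Q : Ideal (𝓞 F)} (hQ : Q.IsPrime) (h3 : (3 : 𝓞 F) ∈ Q) :
    ∃ e : 𝓞 F, (∀ L : Ideal (𝓞 F), L.IsPrime → (3 : 𝓞 F) ∈ L → e ∈ L) ∧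
      2 * e - 3 ∉ Q ^ 2 ∧ ∃ e' : 𝓞 F, e = 4 * e' := by
  by_cases h : (3 : 𝓞 F) ∈ Q ^ 2
  · have hQb : Q ≠ ⊥ :=
      H76EF.natCast_mem_ne_bot (p := 3) Nat.prime_three (by exact_mod_cast h3)
    have hlt : Q ^ 2 < Q := Ideal.pow_lt_self Q hQb hQ.ne_top 2 le_rfl
    obtain ⟨a, haQ, haQ2⟩ := SetLike.exists_of_lt hlt
    obtain ⟨g, hg1, hg2⟩ := exists_sep (p := 3) Nat.prime_three hQ (by exact_mod_cast h3)
    refine ⟨4 * (a * g), ?_, ?_, a * g, rfl⟩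
    · intro L hL h3L
      by_cases hLQ : L = Q
      · rw [hLQ]
        exact Q.mul_mem_left _ (Q.mul_mem_right _ haQ)
      · exact L.mul_mem_left _ (L.mul_mem_left _ (hg2 L hL (by exact_mod_cast h3L) hLQ))
    · intro hmem
      apply haQ2
      have e : a = (3 * a) * 3 - (2 * (4 * (a * g)) - 3) - 3 - (8 * a) * (1 - g) := by ring
      rw [e]
      exact Ideal.sub_mem _ (Ideal.sub_mem _ (Ideal.sub_mem _ (Ideal.mul_mem_left _ _ h) hmem) h)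
        (Ideal.mul_mem_left _ _ hg1)
  · refine ⟨0, fun L _ _ => L.zero_mem, ?_, 0, by ring⟩
    intro hmem
    apply h
    have : (3 : 𝓞 F) = -(2 * 0 - 3) := by ring
    rw [this]
    exact (neg_mem_iff).2 hmem

theorem no_cube {Q : Ideal (𝓞 F)} (hQ : Q.IsPrime) (h3 : (3 : 𝓞 F) ∈ Q) (Y e T n : 𝓞 F)
    (he : e ∈ Q) (he2 : 2 * e - 3 ∉ Q ^ 2) (hY : Y - (1 + e) ∈ Q ^ 2) (hn : n ^ 3 = -64)
    (hT : T ^ 3 - 3 * n * T = Y ^ 2) : False := by
  have hn1 : n + 1 ∈ Q := by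
    apply hQ.mem_of_pow_mem 3
    have : (n + 1) ^ 3 = (n ^ 2 + n - 21) * 3 := by linear_combination hn
    rw [this]
    exact Q.mul_mem_left _ h3
  have hY2 : Y ^ 2 - (1 + 2 * e) ∈ Q ^ 2 := by
    have e1 : Y ^ 2 - (1 + 2 * e) = (Y + 1 + e) * (Y - (1 + e)) + e ^ 2 := by ring
    rw [e1]
    exact Ideal.add_mem _ (Ideal.mul_mem_left _ _ hY) (Ideal.pow_mem_pow he 2)
  have hT1 : T - 1 ∈ Q := by
    apply hQ.mem_of_pow_mem 3
    have e1 : (T - 1) ^ 3 = (Y ^ 2 - (1 + 2 * e)) + 2 * e + (n * T - T ^ 2 + T) * 3 := by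
      linear_combination hT
    rw [e1]
    exact Q.add_mem (Q.add_mem (Ideal.pow_le_self two_ne_zero hY2) (Q.mul_mem_left _ he))
      (Q.mul_mem_left _ h3)
  have h3m : ∀ x : 𝓞 F, x ∈ Q → 3 * x ∈ Q ^ 2 := by
    intro x hx
    rw [sq]
    exact Ideal.mul_mem_mul h3 hx
  have hT3 : T ^ 3 - 1 ∈ Q ^ 2 := by
    have e1 : T ^ 3 - 1 = 3 * (T - 1) + (3 + (T - 1)) * (T - 1) ^ 2 := by ring
    rw [e1]
    exact Ideal.add_mem _ (h3m _ hT1) (Ideal.mul_mem_left _ _ (Ideal.pow_mem_pow hT1 2))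
  have hnT : 3 * n * T + 3 ∈ Q ^ 2 := by
    have e1 : 3 * n * T + 3 = 3 * (T * (n + 1) - (T - 1)) := by ring
    rw [e1]
    exact h3m _ (Q.sub_mem (Q.mul_mem_left _ hn1) hT1)
  apply he2
  have e1 : 2 * e - 3 = (T ^ 3 - 1) - (Y ^ 2 - (1 + 2 * e)) - (3 * n * T + 3) := by
    linear_combination -hT
  rw [e1]
  exact Ideal.sub_mem _ (Ideal.sub_mem _ hT3 hY2) hnT

theorem exists_prime_factor {R : Ideal (𝓞 F)} (hR : R.IsPrime) :
    ∀ l : ℕ, 0 < l → (l : 𝓞 F) ∈ R → ∃ r : ℕ, r.Prime ∧ r ∣ l ∧ (r : 𝓞 F) ∈ R := by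
  intro l
  induction l using Nat.strong_induction_on with
  | _ l ih =>
    intro hl0 hlR
    by_cases h1 : l = 1
    · exfalso
      apply hR.ne_top
      rw [Ideal.eq_top_iff_one]
      rw [h1, Nat.cast_one] at hlR
      exact hlR
    · obtain ⟨r, hr, m, hm⟩ := Nat.exists_prime_and_dvd h1
      have hmul : (l : 𝓞 F) = (r : 𝓞 F) * (m : 𝓞 F) := by rw [hm]; push_cast; ring
      rw [hmul] at hlR
      rcases hR.mem_or_mem hlR with h | h
      · exact ⟨r, hr, ⟨m, hm⟩, h⟩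
      · have hm0 : 0 < m := by
          rcases Nat.eq_zero_or_pos m with h0 | h0
          · rw [h0, Nat.mul_zero] at hm; omega
          · exact h0
        have hml : m < l := by
          rw [hm]
          have := hr.two_le
          nlinarith
        obtain ⟨r', hr', hd, hR'⟩ := ih m hml hm0 h
        exact ⟨r', hr', hd.trans ⟨r, by rw [hm]; ring⟩, hR'⟩

/-- chinese remainders -/
theorem exists_crt {X Y : ℤ} (h : IsCoprime X Y) : ∃ c : ℤ, X ∣ c - 1 ∧ Y ∣ c := by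
  obtain ⟨a, b, hab⟩ := h
  exact ⟨b * Y, ⟨-a, by linear_combination hab⟩, ⟨b, by ring⟩⟩

/-- the product of the primes `5 ≤ l ≤ B` -/
theorem exists_prod (B : ℕ) : ∃ M : ℕ, 0 < M ∧ Nat.Coprime M 18 ∧
    (∀ l : ℕ, l.Prime → 5 ≤ l → l ≤ B → l ∣ M) := by
  refine ⟨∏ l ∈ (Finset.range (B + 1)).filter (fun l => l.Prime ∧ 5 ≤ l), l, ?_, ?_, ?_⟩
  · apply Finset.prod_pos
    intro l hl
    rw [Finset.mem_filter] at hl
    omega
  · apply Nat.Coprime.prod_left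
    intro l hl
    rw [Finset.mem_filter] at hl
    rw [Nat.Prime.coprime_iff_not_dvd hl.2.1]
    intro hd
    have h1 : l ∣ 2 * 3 ^ 2 := hd
    rcases (Nat.Prime.dvd_mul hl.2.1).1 h1 with h | h
    · have := Nat.le_of_dvd (by norm_num) h
      omega
    · have h2 := Nat.le_of_dvd (by norm_num) (hl.2.1.dvd_of_dvd_pow h)
      omega
  · intro l hl h5 hlB
    apply Finset.dvd_prod_of_mem (fun l => l)
    rw [Finset.mem_filter, Finset.mem_range]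
    exact ⟨by omega, hl, h5⟩

theorem exists_param (F : Type) [Field F] [NumberField F] (B : ℕ) :
    ∃ (Y e : 𝓞 F) (p : ℕ) (P Q : Ideal (𝓞 F)), p.Prime ∧ ¬ (p : ℤ) ∣ discr F ∧
      P.IsPrime ∧ Ideal.absNorm P = p ∧ Y ^ 4 + 256 ∈ P ∧ Y ^ 4 + 256 ∉ P ^ 2 ∧
      (∀ P' : Ideal (𝓞 F), P'.IsPrime → (p : 𝓞 F) ∈ P' → P' ≠ P → Y ^ 4 + 256 ∉ P') ∧
      Q.IsPrime ∧ (3 : 𝓞 F) ∈ Q ∧ e ∈ Q ∧ 2 * e - 3 ∉ Q ^ 2 ∧ Y - (1 + e) ∈ Q ^ 2 ∧
      (∀ R : Ideal (𝓞 F), R.IsPrime → (2 : 𝓞 F) ∈ R → Y ∉ R) ∧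
      ∀ R : Ideal (𝓞 F), R.IsPrime → Y ^ 4 + 256 ∈ R → Ideal.absNorm R % 8 = 1 ∧
        ∀ l : ℕ, 0 < l → l ≤ B → (l : 𝓞 F) ∉ R := by
  have hD : discr F ≠ 0 := discr_ne_zero F
  obtain ⟨M, hM0, hM18, hMl⟩ := exists_prod B
  obtain ⟨p, P, y₁, hp, hpB, hP, hPn, hpP, hy1, hy1'⟩ :=
    exists_prime_data F (max M (max 256 (discr F).natAbs))
  have hpM : M < p := by omega
  have hp256 : 256 < p := by omega
  have hpD : ¬ (p : ℤ) ∣ discr F := by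
    intro hdv
    have h1 : p ∣ (discr F).natAbs := Int.natCast_dvd.1 hdv
    have h2 := Nat.le_of_dvd (Int.natAbs_pos.2 hD) h1
    omega
  obtain ⟨Q, hQ, h3Q⟩ := exists_prime_three F
  obtain ⟨e, he1, he2, e', he'⟩ := exists_e hQ h3Q
  obtain ⟨b, hb1, hb2⟩ := exists_sep hp hP hpP
  have hcopM : IsCoprime ((p : ℤ) ^ 2) (M : ℤ) := by
    apply IsCoprime.pow_left
    rw [Nat.isCoprime_iff_coprime, Nat.Prime.coprime_iff_not_dvd hp]
    intro h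
    exact absurd (Nat.le_of_dvd hM0 h) (by omega)
  have hcop18 : IsCoprime ((p : ℤ) ^ 2) (18 : ℤ) := by
    apply IsCoprime.pow_left
    have : ((18 : ℕ) : ℤ) = 18 := rfl
    rw [← this, Nat.isCoprime_iff_coprime, Nat.Prime.coprime_iff_not_dvd hp]
    intro h
    exact absurd (Nat.le_of_dvd (by norm_num) h) (by omega)
  have hcopM18 : IsCoprime (18 : ℤ) (M : ℤ) := by
    have : ((18 : ℕ) : ℤ) = 18 := rfl
    rw [← this, Nat.isCoprime_iff_coprime]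
    exact hM18.symm
  obtain ⟨c₁, h11, h12⟩ := exists_crt (hcop18.mul_right hcopM)
  obtain ⟨c₂, h21, h22⟩ := exists_crt (hcop18.symm.mul_right hcopM18)
  have h12a : (18 : ℤ) ∣ c₁ := (Dvd.intro _ rfl).trans h12
  have h12b : (M : ℤ) ∣ c₁ := (Dvd.intro_left _ rfl).trans h12
  have h22a : (p : ℤ) ^ 2 ∣ c₂ := (Dvd.intro _ rfl).trans h22
  have h22b : (M : ℤ) ∣ c₂ := (Dvd.intro_left _ rfl).trans h22
  obtain ⟨Y, hY⟩ : ∃ Y : 𝓞 F, Y = (c₁ : 𝓞 F) * b * (y₁ : 𝓞 F) + (c₂ : 𝓞 F) * (1 + e) :=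
    ⟨_, rfl⟩
  have hcast : ∀ (m : ℤ) (z : ℤ) (I : Ideal (𝓞 F)), m ∣ z → (m : 𝓞 F) ∈ I → (z : 𝓞 F) ∈ I := by
    rintro m z I ⟨k, hk⟩ hm
    rw [hk, Int.cast_mul]
    exact I.mul_mem_right _ hm
  have hsq : ∀ (I : Ideal (𝓞 F)) (m : ℤ), (p : 𝓞 F) ∈ I → (p : ℤ) ^ 2 ∣ m →
      (m : 𝓞 F) ∈ I ^ 2 := by
    rintro I m hr ⟨k, hk⟩
    have : (m : 𝓞 F) = (p : 𝓞 F) ^ 2 * (k : 𝓞 F) := by rw [hk]; push_cast; ring
    rw [this]
    exact Ideal.mul_mem_right _ _ (Ideal.pow_mem_pow hr 2)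
  -- modulo P²
  have hYP : Y - (y₁ : 𝓞 F) ∈ P ^ 2 := by
    have e1 := hsq P _ hpP h11
    have e2 := hsq P _ hpP h22a
    have e : Y - (y₁ : 𝓞 F) = (y₁ : 𝓞 F) * b * ((c₁ - 1 : ℤ) : 𝓞 F)
        + (-(y₁ : 𝓞 F)) * (1 - b) + (1 + e) * ((c₂ : ℤ) : 𝓞 F) := by
      rw [hY]; push_cast; ring
    rw [e]
    exact Ideal.add_mem _ (Ideal.add_mem _ (Ideal.mul_mem_left _ _ e1)
      (Ideal.mul_mem_left _ _ hb1)) (Ideal.mul_mem_left _ _ e2)
  have hfac : ∀ (x y : 𝓞 F) (I : Ideal (𝓞 F)), x - y ∈ I →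
      (x ^ 4 + 256) - (y ^ 4 + 256) ∈ I := by
    intro x y I h
    have : (x ^ 4 + 256) - (y ^ 4 + 256) = ((x ^ 2 + y ^ 2) * (x + y)) * (x - y) := by ring
    rw [this]
    exact I.mul_mem_left _ h
  have hI1 := H76EF.intCast_not_mem_sq hp hpD hP hpP _ hy1 hy1'
  have hI1' := (H76EF.intCast_mem_iff hp hP hpP _).2 hy1
  push_cast at hI1 hI1'
  have hc1 := hfac _ _ _ hYP
  have hdP : Y ^ 4 + 256 ∈ P := by
    have := P.add_mem (Ideal.pow_le_self (two_ne_zero) hc1) hI1'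
    rwa [sub_add_cancel] at this
  have hdP2 : Y ^ 4 + 256 ∉ P ^ 2 := by
    intro h
    apply hI1
    have := Ideal.sub_mem _ h hc1
    rwa [sub_sub_cancel] at this
  -- modulo 18
  have h18 : ∀ I : Ideal (𝓞 F), (18 : 𝓞 F) ∈ I → Y - (1 + e) ∈ I := by
    intro I hI
    have e1 := hcast 18 c₁ I h12a (by exact_mod_cast hI)
    have e2 := hcast 18 (c₂ - 1) I h21 (by exact_mod_cast hI)
    have e : Y - (1 + e) = (b * (y₁ : 𝓞 F)) * ((c₁ : ℤ) : 𝓞 F)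
        + (1 + e) * ((c₂ - 1 : ℤ) : 𝓞 F) := by
      rw [hY]; push_cast; ring
    rw [e]
    exact I.add_mem (I.mul_mem_left _ e1) (I.mul_mem_left _ e2)
  have h9Q : (18 : 𝓞 F) ∈ Q ^ 2 := by
    have : (18 : 𝓞 F) = 2 * 3 ^ 2 := by norm_num
    rw [this]
    exact Ideal.mul_mem_left _ _ (Ideal.pow_mem_pow h3Q 2)
  have hodd : ∀ R : Ideal (𝓞 F), R.IsPrime → (2 : 𝓞 F) ∈ R → Y ∉ R := by
    intro R hR h2 hYR
    have h18R : (18 : 𝓞 F) ∈ R := by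
      have : (18 : 𝓞 F) = 9 * 2 := by norm_num
      rw [this]
      exact R.mul_mem_left _ h2
    have h1 := h18 R h18R
    apply hR.ne_top
    rw [Ideal.eq_top_iff_one]
    have : (1 : 𝓞 F) = Y - (Y - (1 + e)) - (2 * e') * 2 := by rw [he']; ring
    rw [this]
    exact R.sub_mem (R.sub_mem hYR h1) (R.mul_mem_left _ h2)
  have hd0 : Y ^ 4 + 256 ≠ 0 := by
    intro h
    apply hdP2
    rw [h]
    exact Ideal.zero_mem _
  refine ⟨Y, e, p, P, Q, hp, hpD, hP, hPn, hdP, hdP2, ?_, hQ, h3Q, he1 Q hQ h3Q, he2,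
    h18 _ h9Q, hodd, ?_⟩
  · intro P' hP' hpP' hne hdP'
    have hbP' := hb2 P' hP' hpP' hne
    have hYP' : Y - 0 ∈ P' := by
      have e2 := Ideal.pow_le_self (two_ne_zero) (hsq P' _ hpP' h22a)
      have e : Y - 0 = ((c₁ : 𝓞 F) * (y₁ : 𝓞 F)) * b + (1 + e) * ((c₂ : ℤ) : 𝓞 F) := by
        rw [hY]; push_cast; ring
      rw [e]
      exact Ideal.add_mem _ (Ideal.mul_mem_left _ _ hbP') (Ideal.mul_mem_left _ _ e2)
    have h1 := hfac _ _ _ hYP'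
    have h2 := Ideal.sub_mem _ hdP' h1
    rw [sub_sub_cancel] at h2
    have h3 : ((256 : ℤ) : 𝓞 F) ∈ P' := by
      have : ((256 : ℤ) : 𝓞 F) = 0 ^ 4 + 256 := by push_cast; ring
      rw [this]; exact h2
    have h4 := (H76EF.intCast_mem_iff hp hP' hpP' _).1 h3
    have h5 := Int.le_of_dvd (by norm_num) h4
    omega
  · intro R hR hdR
    have h2R : (2 : 𝓞 F) ∉ R := by
      intro h2
      apply hodd R hR h2
      apply hR.mem_of_pow_mem 4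
      have : Y ^ 4 = (Y ^ 4 + 256) - 128 * 2 := by ring
      rw [this]
      exact R.sub_mem hdR (R.mul_mem_left _ h2)
    have hYR : Y ∉ R := by
      intro h
      apply h2R
      apply hR.mem_of_pow_mem 8
      have : (2 : 𝓞 F) ^ 8 = (Y ^ 4 + 256) - Y ^ 3 * Y := by ring
      rw [this]
      exact R.sub_mem hdR (R.mul_mem_left _ h)
    have hRb : R ≠ ⊥ := by
      intro h
      rw [h, Ideal.mem_bot] at hdR
      exact hd0 hdR
    refine ⟨norm_mod_eight Y R hR hRb h2R hdR, ?_⟩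
    intro l hl0 hlB hlR
    -- a prime factor of l lies in R
    obtain ⟨r, hr, hrl, hrR⟩ := exists_prime_factor hR l hl0 hlR
    have hrB : r ≤ B := (Nat.le_of_dvd hl0 hrl).trans hlB
    have hcases : r = 2 ∨ r = 3 ∨ 5 ≤ r := by
      have := hr.two_le
      by_cases h4 : r = 4
      · exfalso
        rw [h4] at hr
        revert hr
        norm_num
      · omega
    rcases hcases with h | h | h
    · apply h2R
      rw [h] at hrR
      exact_mod_cast hrR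
    · rw [h] at hrR
      have h3R : (3 : 𝓞 F) ∈ R := by exact_mod_cast hrR
      have h18R : (18 : 𝓞 F) ∈ R := by
        have : (18 : 𝓞 F) = 6 * 3 := by norm_num
        rw [this]
        exact R.mul_mem_left _ h3R
      have h1 := h18 R h18R
      have h2 : Y - 1 ∈ R := by
        have : Y - 1 = (Y - (1 + e)) + e := by ring
        rw [this]
        exact R.add_mem h1 (he1 R hR h3R)
      have h3 := hfac _ _ _ h2
      apply h2R
      have : (2 : 𝓞 F) = (Y ^ 4 + 256) - ((Y ^ 4 + 256) - (1 ^ 4 + 256)) - 85 * 3 := by ring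
      rw [this]
      exact R.sub_mem (R.sub_mem hdR h3) (R.mul_mem_left _ h3R)
    · have hrM : r ∣ M := hMl r hr h hrB
      have hMR : ((M : ℤ) : 𝓞 F) ∈ R := by
        obtain ⟨k, hk⟩ := hrM
        have : ((M : ℤ) : 𝓞 F) = (k : 𝓞 F) * (r : 𝓞 F) := by rw [hk]; push_cast; ring
        rw [this]
        exact R.mul_mem_left _ hrR
      have e1 := hcast M c₁ R h12b hMR
      have e2 := hcast M c₂ R h22b hMR
      apply hYR
      have : Y = (b * (y₁ : 𝓞 F)) * ((c₁ : ℤ) : 𝓞 F) + (1 + e) * ((c₂ : ℤ) : 𝓞 F) := by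
        rw [hY]; ring
      rw [this]
      exact R.add_mem (R.mul_mem_left _ e1) (R.mul_mem_left _ e2)

end H89RM
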