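import Mathlib
import Pool.Agent.H89.RM.Curve
import Pool.Agent.H89.RM.Param

/-!
# The quadratic extension
-/

namespace H89RM

open NumberField

section quad

variable {F : Type} [Field F] {a b : F}

/-- the conjugation as an algebra automorphism -/
def conj : QuadraticAlgebra F a b ≃ₐ[F] QuadraticAlgebra F a b where
  toFun := star
  invFun := star
  left_inv x := star_star x
  right_inv x := star_star x
  map_mul' x y := by rw [star_mul, mul_comm]
  map_add' x y := star_add x y
  commutes' r := by
    ext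
    · simp [QuadraticAlgebra.algebraMap_eq]
    · simp [QuadraticAlgebra.algebraMap_eq]

theorem conj_apply (x : QuadraticAlgebra F a b) : conj x = star x := rfl

end quad

theorem exists_ext {F : Type} [Field F] [NumberField F] (Y : 𝓞 F)
    (hns : ∀ r : F, r ^ 2 ≠ (Y : F) ^ 4 + 256) :
    ∃ (K : Type) (_ : Field K) (_ : NumberField K) (_ : Algebra F K) (σ : K ≃ₐ[F] K)
      (P Q : 𝓞 K), Module.finrank F K = 2 ∧ (P : K) * Q = -64 ∧
      (P : K) + Q = algebraMap F K ((Y : F) ^ 2) ∧ σ P = Q ∧ σ Q = P ∧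
      ∀ z : K, ∃ t n : F, z + σ z = algebraMap F K t ∧ z * σ z = algebraMap F K n := by
  have hF : Fact (∀ r : F, r ^ 2 ≠ 64 + (Y : F) ^ 2 * r) := by
    constructor
    intro r hr
    apply hns (2 * r - (Y : F) ^ 2)
    linear_combination 4 * hr
  let K := QuadraticAlgebra F 64 ((Y : F) ^ 2)
  have hNF : NumberField K := NumberField.of_module_finite F K
  obtain ⟨P, hP⟩ : ∃ P : K, P = QuadraticAlgebra.omega := ⟨_, rfl⟩
  have hsum : P + star P = algebraMap F K ((Y : F) ^ 2) := by
    have h := QuadraticAlgebra.algebraMap_trace_eq_add_star P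
    rw [← h, hP, QuadraticAlgebra.trace_omega]
  have hprod : P * star P = algebraMap F K (-64) := by
    have h := QuadraticAlgebra.algebraMap_norm_eq_mul_star P
    rw [← h, hP, QuadraticAlgebra.norm_def]
    congr 1
    simp
  have h64 : algebraMap F K (-64) = -64 := by
    rw [map_neg, map_ofNat]
  rw [h64] at hprod
  obtain ⟨v, hv⟩ : ∃ v : 𝓞 K, algebraMap (𝓞 K) K v = algebraMap F K ((Y : F) ^ 2) := by
    apply IsIntegrallyClosed.isIntegral_iff.1
    have h1 : IsIntegral ℤ ((Y : F) ^ 2) := (RingOfIntegers.isIntegral_coe Y).pow 2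
    have h2 : IsIntegral ℤ (algebraMap F K ((Y : F) ^ 2)) := h1.map (algebraMap F K).toIntAlgHom
    exact h2.tower_top
  obtain ⟨P', hP'⟩ : ∃ P' : 𝓞 K, algebraMap (𝓞 K) K P' = P := by
    apply IsIntegrallyClosed.isIntegral_iff.1
    refine ⟨Polynomial.X ^ 2 - Polynomial.C v * Polynomial.X - Polynomial.C 64, ?_, ?_⟩
    · monicity!
    · simp only [Polynomial.eval₂_sub, Polynomial.eval₂_mul, Polynomial.eval₂_pow,
        Polynomial.eval₂_X, Polynomial.eval₂_C, hv]
      have h0 : algebraMap (𝓞 K) K 64 = 64 := map_ofNat _ 64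
      rw [h0]
      linear_combination P * hsum - hprod
  refine ⟨K, inferInstance, hNF, inferInstance, conj, P', v - P', ?_, ?_, ?_, ?_, ?_, ?_⟩
  · exact QuadraticAlgebra.finrank_eq_two _ _
  · show algebraMap (𝓞 K) K P' * algebraMap (𝓞 K) K (v - P') = -64
    rw [map_sub, hv, hP']
    linear_combination hprod - P * hsum
  · show algebraMap (𝓞 K) K P' + algebraMap (𝓞 K) K (v - P') = _
    rw [map_sub, hv, hP']
    ring
  · show conj (algebraMap (𝓞 K) K P') = algebraMap (𝓞 K) K (v - P')
    rw [map_sub, hv, hP', conj_apply]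
    linear_combination hsum
  · show conj (algebraMap (𝓞 K) K (v - P')) = algebraMap (𝓞 K) K P'
    rw [map_sub, hv, hP', map_sub, AlgEquiv.commutes, conj_apply]
    linear_combination -hsum
  · intro z
    refine ⟨QuadraticAlgebra.trace z, QuadraticAlgebra.norm z, ?_, ?_⟩
    · exact (QuadraticAlgebra.algebraMap_trace_eq_add_star z).symm
    · exact (QuadraticAlgebra.algebraMap_norm_eq_mul_star z).symm

end H89RM
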