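import Mathlib
import Pool.Agent.H89.RM.Ext

/-!
# Elliptic curves over quadratic extensions of any number field that are 2-isogenous to their
conjugate and have good reduction away from the relative discriminant
-/

namespace H89RM

open NumberField

theorem coe_eq {K : Type} [Field K] [NumberField K] {x y : 𝓞 K} (h : (x : K) = y) : x = y :=
  RingOfIntegers.ext h

theorem coe_d {F : Type} [Field F] [NumberField F] (Y : 𝓞 F) :
    ((Y ^ 4 + 256 : 𝓞 F) : F) = (Y : F) ^ 4 + 256 := by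
  show algebraMap (𝓞 F) F (Y ^ 4 + 256) = (algebraMap (𝓞 F) F Y) ^ 4 + 256
  rw [map_add, map_pow, map_ofNat]

theorem map_modelA {R S : Type} [CommRing R] [CommRing S] (f : R →+* S) (p s : R) :
    (modelA p s).map f = modelA (f p) (f s) := by
  ext <;> simp [modelA, map_ofNat]

theorem map_modelB {R S : Type} [CommRing R] [CommRing S] (f : R →+* S) (p s : R) :
    (modelB p s).map f = modelB (f p) (f s) := by
  ext <;> simp [modelB, map_ofNat]

theorem main_two (F : Type) [Field F] [NumberField F] (B : ℕ) :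
    ∃ Y : 𝓞 F,
      (∀ R : Ideal (𝓞 F), R.IsPrime → Y ^ 4 + 256 ∈ R → Ideal.absNorm R % 8 = 1 ∧
        ∀ l : ℕ, 0 < l → l ≤ B → (l : 𝓞 F) ∉ R) ∧
      (∃ (p : ℕ) (P : Ideal (𝓞 F)), p.Prime ∧ ¬ (p : ℤ) ∣ discr F ∧ P.IsPrime ∧
        Ideal.absNorm P = p ∧ Y ^ 4 + 256 ∈ P ∧ Y ^ 4 + 256 ∉ P ^ 2 ∧
        ∀ P' : Ideal (𝓞 F), P'.IsPrime → (p : 𝓞 F) ∈ P' → P' ≠ P → Y ^ 4 + 256 ∉ P') ∧
      ∃ (K : Type) (_ : Field K) (_ : NumberField K) (_ : Algebra F K) (σ : K ≃ₐ[F] K)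
        (s : 𝓞 K) (a b l : K), Module.finrank F K = 2 ∧
        (s : K) ^ 2 = algebraMap F K ((Y : F) ^ 4 + 256) ∧ σ s = -s ∧
        -2 * a = l ^ 2 * σ a ∧ a ^ 2 - 4 * b = l ^ 4 * σ b ∧ l * σ l = 2 ∧
        (∃ j : 𝓞 K, (⟨0, a, 0, b, 0⟩ : WeierstrassCurve K).c₄ ^ 3 =
          j * (⟨0, a, 0, b, 0⟩ : WeierstrassCurve K).Δ) ∧
        (∀ x : K, x ^ 3 ≠ (⟨0, a, 0, b, 0⟩ : WeierstrassCurve K).Δ) ∧
        ∀ R : Ideal (𝓞 K), R.IsPrime → ∃ (W : WeierstrassCurve (𝓞 K))
          (C : WeierstrassCurve.VariableChange K) (x : 𝓞 K),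
          W.map (algebraMap (𝓞 K) K) = C • (⟨0, a, 0, b, 0⟩ : WeierstrassCurve K) ∧
          W.Δ = s ^ 3 * x ∧ x ∉ R := by
  obtain ⟨Y, e, p, P₀, Q₀, hp, hpD, hP, hPn, hdP, hdP2, hoth, hQ, h3Q, heQ, he2, hYe, hodd,
    hbad⟩ := exists_param F B
  have hns : ∀ r : F, r ^ 2 ≠ (Y : F) ^ 4 + 256 := by
    intro r hr
    have hint : IsIntegral ℤ r := by
      apply IsIntegral.of_pow (n := 2) (by norm_num)
      have : r ^ 2 = ((Y ^ 4 + 256 : 𝓞 F) : F) := by rw [hr, coe_d]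
      rw [this]
      exact RingOfIntegers.isIntegral_coe _
    obtain ⟨r', hr'⟩ : ∃ r' : 𝓞 F, (r' : F) = r := ⟨⟨r, hint⟩, rfl⟩
    have h1 : r' ^ 2 = Y ^ 4 + 256 := by
      apply coe_eq
      rw [coe_d, ← hr, ← hr']
      rfl
    apply hdP2
    rw [← h1] at hdP ⊢
    exact Ideal.pow_mem_pow (hP.mem_of_pow_mem 2 hdP) 2
  obtain ⟨K, iK, iNF, iA, σ, P, Q, hfin, hPQ, hsum, hσP, hσQ, htn⟩ := exists_ext Y hns
  refine ⟨Y, hbad, ⟨p, P₀, hp, hpD, hP, hPn, hdP, hdP2, hoth⟩, K, iK, iNF, iA, σ, P - Q, ?_⟩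
  obtain ⟨y, hy⟩ : ∃ y : K, y = algebraMap F K (Y : F) := ⟨_, rfl⟩
  have hsum' : (P : K) + Q = y ^ 2 := by rw [hsum, hy, map_pow]
  obtain ⟨S, hS⟩ : ∃ S : K, S = (P : K) - Q := ⟨_, rfl⟩
  have hSc : ((P - Q : 𝓞 K) : K) = S := by rw [hS]; push_cast; ring
  have hσS : σ S = -S := by rw [hS, map_sub, hσP, hσQ]; ring
  have hσy : σ y = y := by rw [hy, AlgEquiv.commutes]
  have hd : S ^ 2 = y ^ 4 + 256 := by
    rw [hS]
    linear_combination ((P : K) + Q + y ^ 2) * hsum' - 4 * hPQ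
  have hd' : algebraMap F K ((Y : F) ^ 4 + 256) = y ^ 4 + 256 := by
    rw [map_add, map_pow, ← hy, map_ofNat]
  have h2K : (2 : K) ≠ 0 := two_ne_zero
  have hY0 : Y ≠ 0 := by
    intro h0
    apply hQ.ne_top
    rw [Ideal.eq_top_iff_one]
    have e1 : (1 : 𝓞 F) = Y - (Y - (1 + e)) - e := by ring
    rw [e1, h0, zero_sub]
    rw [h0] at hYe
    exact Q₀.sub_mem ((neg_mem_iff).2 (Ideal.pow_le_self two_ne_zero hYe)) heQ
  have hy0 : y ≠ 0 := by
    rw [hy]
    intro h0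
    apply hY0
    apply coe_eq
    have := (map_eq_zero_iff (algebraMap F K) (algebraMap F K).injective).1 h0
    rw [this]
    rfl
  have hN8 : ((P : K) + 8) * (Q + 8) = 8 * y ^ 2 := by
    linear_combination hPQ + 8 * hsum'
  have h8y : 8 * y ^ 2 ≠ 0 := by
    apply mul_ne_zero _ (pow_ne_zero _ hy0)
    have : (8 : K) = 2 ^ 3 := by norm_num
    rw [this]
    exact pow_ne_zero _ h2K
  have hP8 : (P : K) + 8 ≠ 0 := by
    intro h0
    rw [h0, zero_mul] at hN8
    exact h8y hN8.symm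
  have hQ8 : (Q : K) + 8 ≠ 0 := by
    intro h0
    rw [h0, mul_zero] at hN8
    exact h8y hN8.symm
  have h64 : (-64 : K) ≠ 0 := by
    have : (-64 : K) = -(2 ^ 6) := by norm_num
    rw [this]
    exact neg_ne_zero.2 (pow_ne_zero _ h2K)
  have hP0 : (P : K) ≠ 0 := by
    intro h0
    rw [h0, zero_mul] at hPQ
    exact h64 hPQ.symm
  have hQ0 : (Q : K) ≠ 0 := by
    intro h0
    rw [h0, mul_zero] at hPQ
    exact h64 hPQ.symm
  have hd0 : Y ^ 4 + 256 ≠ 0 := by
    intro h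
    apply hdP2
    rw [h]
    exact Ideal.zero_mem _
  have hS0 : S ≠ 0 := by
    intro h0
    rw [h0] at hd
    apply hd0
    apply coe_eq
    apply (algebraMap F K).injective
    rw [coe_d, hd', ← hd]
    have e0 : ((0 : 𝓞 F) : F) = 0 := rfl
    rw [e0, map_zero]
    norm_num
  obtain ⟨i1, i2, i3⟩ := isog h2K y P Q S hy0 hS hPQ hsum'
  refine ⟨-8 * ((P : K) + 8) * S, 16 * ((P : K) + 8) ^ 2 * P * S, ((P : K) + 8) / (2 * y),
    hfin, ?_, ?_, ?_, ?_, ?_, ⟨P ^ 2 + 768 + 48 * Q ^ 2 + Q ^ 4, ?_⟩, ?_, ?_⟩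
  · rw [hSc, hd, hd']
  · rw [hSc, hσS]
  · have e1 : σ (-8 * ((P : K) + 8) * S) = -8 * ((Q : K) + 8) * (-S) := by
      rw [map_mul, map_mul, map_add, hσP, hσS, map_neg, map_ofNat]
    rw [e1]
    exact i1
  · have e1 : σ (16 * ((P : K) + 8) ^ 2 * P * S) = 16 * ((Q : K) + 8) ^ 2 * Q * (-S) := by
      rw [map_mul, map_mul, map_mul, map_pow, map_add, hσP, hσS, map_ofNat, map_ofNat]
    rw [e1]
    exact i2
  · have e1 : σ (((P : K) + 8) / (2 * y)) = ((Q : K) + 8) / (2 * y) := by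
      rw [map_div₀, map_add, map_mul, hσP, hσy, map_ofNat, map_ofNat]
    rw [e1]
    exact i3
  · -- the j-invariant is integral
    have e1 : ((P ^ 2 + 768 + 48 * Q ^ 2 + Q ^ 4 : 𝓞 K) : K) =
        (P : K) ^ 2 + 768 + 48 * (Q : K) ^ 2 + (Q : K) ^ 4 := by
      show algebraMap (𝓞 K) K (P ^ 2 + 768 + 48 * Q ^ 2 + Q ^ 4) = _
      rw [map_add, map_add, map_add, map_mul, map_pow, map_pow, map_pow, map_ofNat, map_ofNat]
    have e2 : (⟨0, -8 * ((P : K) + 8) * S, 0, 16 * ((P : K) + 8) ^ 2 * P * S, 0⟩ :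
        WeierstrassCurve K).Δ = 2 ^ 24 * ((P : K) + 8) ^ 6 * P * S ^ 3 :=
      curve_Δ (P : K) Q S hS hPQ
    have e3 : (⟨0, -8 * ((P : K) + 8) * S, 0, 16 * ((P : K) + 8) ^ 2 * P * S, 0⟩ :
        WeierstrassCurve K).c₄ = 2 ^ 8 * ((P : K) + 8) ^ 2 * S * (P - 4 * Q) := by
      simp only [WeierstrassCurve.c₄, WeierstrassCurve.b₂, WeierstrassCurve.b₄]
      rw [hS]
      ring
    have e4 : ((P : K) - 4 * Q) ^ 3 = P * ((P : K) ^ 2 + 768 + 48 * (Q : K) ^ 2 + (Q : K) ^ 4) := by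
      linear_combination (-12 * (P : K) - (Q : K) ^ 3) * hPQ
    rw [e1, e2, e3]
    linear_combination (2 ^ 24 * ((P : K) + 8) ^ 6 * S ^ 3) * e4
  · -- the discriminant is not a cube
    intro x hx
    have hx' : x ^ 3 = 2 ^ 24 * ((P : K) + 8) ^ 6 * P * S ^ 3 := by
      rw [hx]
      exact curve_Δ (P : K) Q S hS hPQ
    obtain ⟨c, hc⟩ : ∃ c : K, c = 2 ^ 8 * ((P : K) + 8) ^ 2 * S := ⟨_, rfl⟩
    have hc0 : c ≠ 0 := by
      rw [hc]
      exact mul_ne_zero (mul_ne_zero (pow_ne_zero _ h2K) (pow_ne_zero _ hP8)) hS0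
    obtain ⟨z, hz⟩ : ∃ z : K, z = x / c := ⟨_, rfl⟩
    have hz3 : z ^ 3 = (P : K) := by
      rw [hz, div_pow, hx', div_eq_iff (pow_ne_zero _ hc0), hc]
      ring
    obtain ⟨t, n, ht, hn⟩ := htn z
    have hσz3 : (σ z) ^ 3 = (Q : K) := by rw [← map_pow, hz3, hσP]
    have hzi : IsIntegral ℤ z := by
      apply IsIntegral.of_pow (n := 3) (by norm_num)
      rw [hz3]
      exact RingOfIntegers.isIntegral_coe _
    have hσzi : IsIntegral ℤ (σ z) := by
      apply IsIntegral.of_pow (n := 3) (by norm_num)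
      rw [hσz3]
      exact RingOfIntegers.isIntegral_coe _
    have hti : IsIntegral ℤ t := by
      apply (isIntegral_algebraMap_iff (algebraMap F K).injective).1
      rw [← ht]
      exact hzi.add hσzi
    have hni : IsIntegral ℤ n := by
      apply (isIntegral_algebraMap_iff (algebraMap F K).injective).1
      rw [← hn]
      exact hzi.mul hσzi
    obtain ⟨t', ht'⟩ : ∃ t' : 𝓞 F, (t' : F) = t := ⟨⟨t, hti⟩, rfl⟩
    obtain ⟨n', hn'⟩ : ∃ n' : 𝓞 F, (n' : F) = n := ⟨⟨n, hni⟩, rfl⟩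
    have hn3 : n' ^ 3 = -64 := by
      apply coe_eq
      apply (algebraMap F K).injective
      have e1 : ((n' ^ 3 : 𝓞 F) : F) = n ^ 3 := by rw [← hn']; rfl
      have e2 : ((-64 : 𝓞 F) : F) = -64 := by
        show algebraMap (𝓞 F) F (-64) = -64
        rw [map_neg, map_ofNat]
      rw [e1, e2, map_pow, map_neg, map_ofNat, ← hn, ← hPQ, mul_pow, hz3, hσz3]
    have hT : t' ^ 3 - 3 * n' * t' = Y ^ 2 := by
      apply coe_eq
      apply (algebraMap F K).injective
      have e1 : ((t' ^ 3 - 3 * n' * t' : 𝓞 F) : F) = t ^ 3 - 3 * n * t := by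
        show algebraMap (𝓞 F) F (t' ^ 3 - 3 * n' * t') = _
        rw [← hn', ← ht', map_sub, map_mul, map_mul, map_pow, map_ofNat]
      have e2 : ((Y ^ 2 : 𝓞 F) : F) = (Y : F) ^ 2 := rfl
      rw [e1, e2, map_sub, map_mul, map_mul, map_pow, map_pow, map_ofNat, ← hy, ← hn, ← ht]
      linear_combination hsum' + hz3 + hσz3
    exact no_cube hQ h3Q Y e t' n' heQ he2 hYe hn3 hT
  · -- models
    intro R hR
    obtain ⟨Yk, hYk⟩ : ∃ Yk : 𝓞 K, Yk = algebraMap (𝓞 F) (𝓞 K) Y := ⟨_, rfl⟩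
    have hYk' : (Yk : K) = y := by
      rw [hYk, hy]
      exact (IsScalarTower.algebraMap_apply (𝓞 F) (𝓞 K) K Y).symm
    have hPQi : P * Q = -64 := by
      apply coe_eq
      have e2 : ((-64 : 𝓞 K) : K) = -64 := by
        show algebraMap (𝓞 K) K (-64) = -64
        rw [map_neg, map_ofNat]
      rw [e2, ← hPQ]
      rfl
    have hsumi : P + Q = Yk ^ 2 := by
      apply coe_eq
      have e1 : ((Yk ^ 2 : 𝓞 K) : K) = (Yk : K) ^ 2 := rfl
      rw [e1, hYk', ← hsum']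
      rfl
    have hYR : (2 : 𝓞 K) ∈ R → Yk ∉ R := by
      intro h2 hYR
      have hc : (R.comap (algebraMap (𝓞 F) (𝓞 K))).IsPrime := Ideal.IsPrime.comap _
      apply hodd _ hc
      · rw [Ideal.mem_comap, map_ofNat]
        exact h2
      · rw [Ideal.mem_comap, ← hYk]
        exact hYR
    by_cases hA : (P + 8) ^ 6 * P ∈ R
    · -- second model
      obtain ⟨C, hC⟩ := modelB_eq h2K y P Q S hy0 hQ0 hQ8 hS hPQ hsum'
      refine ⟨modelB Q (P - Q), C, -((Q + 8) ^ 6 * Q ^ 11), ?_, modelB_Δ P Q (P - Q) rfl hPQi, ?_⟩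
      · rw [map_modelB]
        have e1 : algebraMap (𝓞 K) K (P - Q) = S := hSc
        rw [e1]
        exact hC
      · intro hB
        rw [neg_mem_iff] at hB
        have h2of : ∀ (m : ℕ), (2 : 𝓞 K) ^ m ∈ R → (2 : 𝓞 K) ∈ R :=
          fun m h => hR.mem_of_pow_mem m h
        have h2P : (2 : 𝓞 K) ∈ R → P ∈ R → Q ∈ R → False := by
          intro h2 hP' hQ'
          apply hYR h2
          apply hR.mem_of_pow_mem 2
          rw [← hsumi]
          exact R.add_mem hP' hQ'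
        have h2Q : Q ∈ R → (2 : 𝓞 K) ∈ R := by
          intro hQ'
          apply h2of 6
          have : (2 : 𝓞 K) ^ 6 = (-P) * Q := by linear_combination hPQi
          rw [this]
          exact R.mul_mem_left _ hQ'
        have h2P' : P ∈ R → (2 : 𝓞 K) ∈ R := by
          intro hP'
          apply h2of 6
          have : (2 : 𝓞 K) ^ 6 = (-Q) * P := by linear_combination hPQi
          rw [this]
          exact R.mul_mem_left _ hP'
        have hP8R : (P + 8 ∈ R) ∨ P ∈ R := by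
          rcases hR.mem_or_mem hA with h | h
          · exact Or.inl (hR.mem_of_pow_mem 6 h)
          · exact Or.inr h
        have hQ8R : (Q + 8 ∈ R) ∨ Q ∈ R := by
          rcases hR.mem_or_mem hB with h | h
          · exact Or.inl (hR.mem_of_pow_mem 6 h)
          · exact Or.inr (hR.mem_of_pow_mem 11 h)
        have h8 : ∀ x : 𝓞 K, (2 : 𝓞 K) ∈ R → x + 8 ∈ R → x ∈ R := by
          intro x h2 hx
          have : x = (x + 8) - 4 * 2 := by ring
          rw [this]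
          exact R.sub_mem hx (R.mul_mem_left _ h2)
        by_cases h2 : (2 : 𝓞 K) ∈ R
        · have hPR : P ∈ R := by
            rcases hP8R with h | h
            · exact h8 P h2 h
            · exact h
          have hQR : Q ∈ R := by
            rcases hQ8R with h | h
            · exact h8 Q h2 h
            · exact h
          exact h2P h2 hPR hQR
        · have hPR : P + 8 ∈ R := by
            rcases hP8R with h | h
            · exact h
            · exact absurd (h2P' h) h2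
          have hQR : Q + 8 ∈ R := by
            rcases hQ8R with h | h
            · exact h
            · exact absurd (h2Q h) h2
          have h1 : (2 : 𝓞 K) ^ 3 * Yk ^ 2 ∈ R := by
            have : (2 : 𝓞 K) ^ 3 * Yk ^ 2 = (P + 8) * (Q + 8) := by
              linear_combination (-8) * hsumi - hPQi
            rw [this]
            exact R.mul_mem_left _ hQR
          have hYR' : Yk ^ 2 ∈ R := by
            rcases hR.mem_or_mem h1 with h | h
            · exact absurd (h2of 3 h) h2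
            · exact h
          apply h2
          apply h2of 4
          have : (2 : 𝓞 K) ^ 4 = (P + 8) + (Q + 8) - Yk ^ 2 := by
            linear_combination -hsumi
          rw [this]
          exact R.sub_mem (R.add_mem hPR hQR) hYR'
    · obtain ⟨C, hC, hC'⟩ := modelA_eq h2K P Q S hS hPQ
      have e1 : algebraMap (𝓞 K) K (P - Q) = S := hSc
      have e2 : (modelA P (P - Q)).map (algebraMap (𝓞 K) K) = modelA (P : K) S := by
        rw [map_modelA, e1]
      refine ⟨modelA P (P - Q), C, (P + 8) ^ 6 * P, ?_, ?_, hA⟩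
      · rw [e2]
        exact hC'
      · apply coe_eq
        have e3 := WeierstrassCurve.map_Δ (modelA P (P - Q)) (algebraMap (𝓞 K) K)
        rw [e2, modelA_Δ h2K (P : K) Q S hS hPQ] at e3
        show algebraMap (𝓞 K) K (modelA P (P - Q)).Δ = algebraMap (𝓞 K) K _
        rw [← e3, map_mul, map_mul, map_pow, map_pow, map_add, e1, map_ofNat]

end H89RM
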